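import Pool.Agent.helper78.EQ.Spec
import Pool.Agent.helper30.LD.J0

set_option autoImplicit false

open Complex MeasureTheory Set Metric

namespace Pool.Agent.EQ

open Pool.Agent.helper6.LD

/-- a closed box is bounded -/
theorem helper31_box_bounded (a b c d : ℝ) :
    Bornology.IsBounded {ρ : ℂ | a ≤ ρ.re ∧ ρ.re ≤ b ∧ c ≤ ρ.im ∧ ρ.im ≤ d} := by
  refine ((isBounded_Icc a b).reProdIm (isBounded_Icc c d)).subset ?_
  rintro ρ ⟨h1, h2, h3, h4⟩
  rw [mem_reProdIm]
  exact ⟨⟨h1, h2⟩, ⟨h3, h4⟩⟩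

theorem helper31_re_le {ρ : ℂ} (h : riemannZeta ρ = 0) : ρ.re ≤ 1 := by
  by_contra hcon
  push Not at hcon
  exact riemannZeta_ne_zero_of_one_le_re hcon.le h

/-- comparison with the box of the trivial bound -/
theorem helper31_zc_le {S : Set ℂ} {T U : ℝ}
    (h : ∀ ρ ∈ S, riemannZeta ρ = 0 → 1 / 2 ≤ ρ.re ∧ T ≤ ρ.im ∧ ρ.im ≤ U) :
    zc S ≤ zc {ρ : ℂ | 1 / 2 ≤ ρ.re ∧ T ≤ ρ.im ∧ ρ.im ≤ U} := by
  have e1 : zc {ρ : ℂ | 1 / 2 ≤ ρ.re ∧ T ≤ ρ.im ∧ ρ.im ≤ U} =
      zc {ρ : ℂ | 1 / 2 ≤ ρ.re ∧ ρ.re ≤ 1 ∧ T ≤ ρ.im ∧ ρ.im ≤ U} := by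
    apply h30_zc_congr
    intro ρ hρ
    constructor
    · rintro ⟨a, b, c⟩; exact ⟨a, helper31_re_le hρ, b, c⟩
    · rintro ⟨a, -, b, c⟩; exact ⟨a, b, c⟩
  have e2 : zc S = zc (S ∩ {ρ : ℂ | 1 / 2 ≤ ρ.re ∧ ρ.re ≤ 1 ∧ T ≤ ρ.im ∧ ρ.im ≤ U}) := by
    apply h30_zc_congr
    intro ρ hρ
    constructor
    · intro hS
      obtain ⟨a, b, c⟩ := h ρ hS hρ
      exact ⟨hS, a, helper31_re_le hρ, b, c⟩
    · rintro ⟨a, -⟩; exact a
  rw [e1, e2]
  exact zc_mono inter_subset_right (helper31_box_bounded _ _ _ _)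

theorem helper31_lam {η : ℝ} (hη : 0 < η) : ∃ lam : ℝ, 0 < lam ∧ lam ≤ 1 ∧
    20 * lam * Real.log (Real.exp 1 / lam) ≤ η := by
  set s : ℝ := min 1 (η / 60) with hs
  have hs0 : 0 < s := by positivity
  have hs1 : s ≤ 1 := min_le_left _ _
  have hs2 : s ≤ η / 60 := min_le_right _ _
  refine ⟨s ^ 2, by positivity, by nlinarith, ?_⟩
  have h1 : Real.log (Real.exp 1 / s ^ 2) = 1 + 2 * Real.log (1 / s) := by
    rw [Real.log_div (Real.exp_pos 1).ne' (by positivity), Real.log_exp, Real.log_pow,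
      Real.log_div one_ne_zero hs0.ne', Real.log_one]
    push_cast
    ring
  have h2 : Real.log (1 / s) ≤ 1 / s := Real.log_le_self (by positivity)
  have h3 : s ^ 2 * (1 / s) = s := by field_simp
  rw [h1]
  calc 20 * s ^ 2 * (1 + 2 * Real.log (1 / s)) ≤ 20 * s ^ 2 * (1 + 2 * (1 / s)) := by gcongr
    _ = 20 * s ^ 2 + 40 * (s ^ 2 * (1 / s)) := by ring
    _ = 20 * s ^ 2 + 40 * s := by rw [h3]
    _ ≤ η := by nlinarith

theorem helper31_dz_finite (σ : ℝ) (hσ : 1 / 4 ≤ σ) (k : ℕ) : (dz σ k).Finite := by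
  refine (zeros_finite (helper31_box_bounded (1 / 4) 1 k (k + 1))).subset ?_
  rintro ρ ⟨h1, h2, h3, h4⟩
  exact ⟨⟨hσ.trans h2, helper31_re_le h1, h3, h4⟩, h1⟩

theorem I4 (hNEX : NEX_stmt) (hZTR : ZTR_stmt) (hTRF : TRF_stmt) (hEXP : EXP_stmt) : I4_stmt := by
  intro θ b hθ hb hEb hCr
  obtain ⟨C₀, hC₀, hZ⟩ := hZTR
  refine hTRF θ b (fun σ => 2 * (1 - σ)) Zer {Cr} hθ hb hEb ?_ ?_ ?_
  · -- the trivial bound
    intro ε η _ hη
    refine ⟨C₀ / η, by positivity, ?_⟩
    intro σ T H hσ hσ1 hT hH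
    have hX : 0 < T + H + 2 := by linarith
    have h1 : zc {ρ : ℂ | σ ≤ ρ.re ∧ T < ρ.im ∧ ρ.im ≤ T + H} ≤
        zc {ρ : ℂ | 1 / 2 ≤ ρ.re ∧ T ≤ ρ.im ∧ ρ.im ≤ T + H} :=
      helper31_zc_le (fun ρ hρ _ => ⟨hσ.trans hρ.1, hρ.2.1.le, hρ.2.2⟩)
    have h2 : Zer ε σ T H ≤ C₀ * H * Real.log (T + H + 2) := by
      unfold Zer
      exact (Nat.cast_le.mpr h1).trans (hZ T H hT hH)
    refine h2.trans ?_
    have h3 := Real.log_le_rpow_div hX.le hη
    calc C₀ * H * Real.log (T + H + 2) ≤ C₀ * H * ((T + H + 2) ^ η / η) := by gcongr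
      _ = C₀ / η * (T + H + 2) ^ η * H := by ring
  · -- the main part
    intro ε δ η _ hδ hδ4 hη
    obtain ⟨lam, hlam, hlam1, hlamη⟩ := helper31_lam hη
    set M : ℝ := 100 / lam ^ 2 with hM
    have hM0 : 0 < M := by positivity
    set δ₁ : ℝ := min δ (1 / 16) with hδ₁
    have hδ₁0 : 0 < δ₁ := by positivity
    have hδ₁a : δ₁ ≤ δ := min_le_left _ _
    have hδ₁b : δ₁ ≤ 1 / 16 := min_le_right _ _
    set κ : ℝ := η / 2 with hκ
    have hκ0 : 0 < κ := by positivity
    obtain ⟨c, γ₀, hc, hγ₀, hN⟩ := hNEX lam M δ₁ hlam hlam1 le_rfl hδ₁0 hδ₁b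
    obtain ⟨B, hB, hE⟩ := hEXP lam M hlam hlam1 le_rfl
    set ε' : ℝ := min η (c * κ / 2) with hε'
    have hε'0 : 0 < ε' := by positivity
    have hε'a : ε' ≤ η := min_le_left _ _
    have hε'b : ε' ≤ c * κ / 2 := min_le_right _ _
    set X₁ : ℝ := 2 * M + 14 with hX₁
    have hX₁0 : 0 < X₁ := by positivity
    -- the constant
    set C₁ : ℝ := C₀ * (2 * M + 6) * 3 / η with hC₁
    have hC₁0 : 0 < C₁ := by positivity
    have hlogX₁ : 0 ≤ Real.log X₁ := Real.log_nonneg (by linarith)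
    set C : ℝ := (2 * M + 13) + C₀ * X₁ * Real.log X₁ + B + 2 * C₀ * γ₀ ^ 2 + C₁ with hC
    have hCpos : 0 < C := by positivity
    refine ⟨Cr, rfl, ε', C, hε'0, hε'a, hCpos, ?_⟩
    intro σ T H hσ hσ1 hT hH
    have hσh : 1 / 2 ≤ σ := by linarith
    set X : ℝ := T + H + 2 with hX
    have hX3 : 3 ≤ X := by linarith
    have hX0 : 0 < X := by linarith
    have hXη : 1 ≤ X ^ η := Real.one_le_rpow (by linarith) hη.le
    have hHE : 1 ≤ H ^ (2 * (1 - σ)) := Real.one_le_rpow hH (by linarith)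
    set T' : ℝ := max (T - M - 5) 0 with hT'
    set H' : ℝ := H + 2 * M + 12 with hH'
    have hT'0 : 0 ≤ T' := le_max_right _ _
    have hT'T : T' ≤ T := max_le (by linarith) hT
    have hT'1 : T - M - 5 ≤ T' := le_max_left _ _
    have hC13 : 2 * M + 13 ≤ C := by
      have : 0 ≤ C₀ * X₁ * Real.log X₁ := by positivity
      have : 0 ≤ 2 * C₀ * γ₀ ^ 2 := by positivity
      rw [hC]; linarith
    refine ⟨T', H', hT'0, hT'T, by linarith, ?_, ?_⟩
    · have hm : 0 ≤ (2 * M + 12) * (H - 1) := mul_nonneg (by linarith) (by linarith)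
      calc H' ≤ (2 * M + 13) * H := by rw [hH']; linarith
        _ ≤ C * H := by gcongr
        _ ≤ C * X ^ η * H :=
            mul_le_mul_of_nonneg_right (le_mul_of_one_le_right hCpos.le hXη) (by linarith)
    · intro B' hB' hu
      have hS1 : zc {ρ : ℂ | σ ≤ ρ.re ∧ T < ρ.im ∧ ρ.im ≤ T + H} ≤
          zc {ρ : ℂ | 1 / 2 ≤ ρ.re ∧ T ≤ ρ.im ∧ ρ.im ≤ T + H} :=
        helper31_zc_le (fun ρ hρ _ => ⟨hσh.trans hρ.1, hρ.2.1.le, hρ.2.2⟩)
      rcases lt_or_ge X X₁ with hXs | hXl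
      · -- small `X`
        have h2 : Zer ε σ T H ≤ C₀ * H * Real.log X := by
          unfold Zer
          exact (Nat.cast_le.mpr hS1).trans (hZ T H hT hH)
        have h3 : C₀ * H * Real.log X ≤ C₀ * X₁ * Real.log X₁ := by
          have hl : Real.log X ≤ Real.log X₁ := Real.log_le_log hX0 hXs.le
          have hl0 : 0 ≤ Real.log X := Real.log_nonneg (by linarith)
          have hHX : H ≤ X₁ := by linarith
          gcongr
        have h4 : C₀ * X₁ * Real.log X₁ ≤ C := by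
          have : 0 ≤ 2 * C₀ * γ₀ ^ 2 := by positivity
          rw [hC]; linarith
        calc Zer ε σ T H ≤ C := h2.trans (h3.trans h4)
          _ ≤ C * X ^ η := le_mul_of_one_le_right hCpos.le hXη
          _ ≤ C * X ^ η * (H ^ (2 * (1 - σ)) + B') := by
              refine le_mul_of_one_le_right (by positivity) (by linarith)
      · -- large `X`
        set X' : ℝ := T' + H' + 2 with hX'
        have hX'X : X' ≤ X ^ 2 := by
          have h4 : X' ≤ X + (2 * M + 12) := by rw [hX', hH', hX]; linarith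
          have h5 : (2 * M + 14) * X ≤ X * X := mul_le_mul_of_nonneg_right hXl hX0.le
          have h6 : (2 * M + 13) * 1 ≤ (2 * M + 13) * X :=
            mul_le_mul_of_nonneg_left (by linarith) (by linarith)
          have h7 : X ^ 2 = X * X := sq X
          linarith
        have hX'0 : 1 ≤ X' := by rw [hX', hH']; linarith
        set Y : ℝ := max γ₀ (X ^ κ) with hY
        have hY1 : 1 ≤ Y := hγ₀.trans (le_max_left _ _)
        have hXκ : 1 ≤ X ^ κ := Real.one_le_rpow (by linarith) hκ0.le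
        have hYle : Y ≤ γ₀ * X ^ κ := by
          refine max_le ?_ ?_
          · exact le_mul_of_one_le_right (by linarith) hXκ
          · exact le_mul_of_one_le_left (by linarith) hγ₀
        -- the crowded windows
        have hKfin : {k : ℕ | k ∈ wins T' H' ∧
            ε' * Real.log (T' + H' + 2) ≤ ((dz (σ - δ) k).ncard : ℝ)}.Finite := by
          refine (Set.finite_Iic ⌊T' + H'⌋₊).subset ?_
          rintro k ⟨⟨-, h⟩, -⟩
          exact Nat.le_floor h
        set K : Finset ℕ := hKfin.toFinset with hK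
        have hKcard : (K.card : ℝ) ≤ B' := by
          have h1 := hu (σ - δ) le_rfl (by linarith)
          unfold Cr at h1
          rw [Set.ncard_eq_toFinset_card _ hKfin] at h1
          exact h1
        -- the covering
        set P1 : Set ℂ := {ρ : ℂ | σ ≤ ρ.re ∧ T < ρ.im ∧ ρ.im ≤ T + H ∧ riemannZeta ρ = 0 ∧
          Exposed lam M ρ} with hP1
        set P2 : Set ℂ := {ρ : ℂ | 1 / 2 ≤ ρ.re ∧ ρ.re ≤ 1 ∧ 0 ≤ ρ.im ∧ ρ.im ≤ 0 + Y} with hP2
        set P3 : ℕ → Set ℂ := fun k => {ρ : ℂ | 1 / 2 ≤ ρ.re ∧ ρ.re ≤ 1 ∧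
          max ((k : ℝ) - M - 3) 0 ≤ ρ.im ∧ ρ.im ≤ max ((k : ℝ) - M - 3) 0 + (2 * M + 6)} with hP3
        have hb1 : Bornology.IsBounded P1 := by
          refine (helper31_box_bounded σ 1 T (T + H)).subset ?_
          rintro ρ ⟨h1, h2, h3, h4, -⟩
          exact ⟨h1, helper31_re_le h4, h2.le, h3⟩
        have hb2 : Bornology.IsBounded P2 := helper31_box_bounded _ _ _ _
        have hb3 : ∀ k ∈ K, Bornology.IsBounded (P3 k) := fun k _ => helper31_box_bounded _ _ _ _
        have hbU : Bornology.IsBounded (⋃ k ∈ K, P3 k) :=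
          (Bornology.isBounded_biUnion_finset K).2 hb3
        have hcov : {ρ : ℂ | σ ≤ ρ.re ∧ T < ρ.im ∧ ρ.im ≤ T + H ∧ riemannZeta ρ = 0} ⊆
            (P1 ∪ P2) ∪ ⋃ k ∈ K, P3 k := by
          rintro ρ ⟨h1, h2, h3, h4⟩
          have hre := helper31_re_le h4
          by_cases hexp : Exposed lam M ρ
          · exact Or.inl (Or.inl ⟨h1, h2, h3, h4, hexp⟩)
          by_cases hYρ : ρ.im ≤ Y
          · exact Or.inl (Or.inr ⟨hσh.trans h1, hre, by linarith, by linarith⟩)
          push Not at hYρ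
          obtain ⟨k, hk1, hk2⟩ := hN ρ h4 (hσh.trans h1) ((le_max_left _ _).trans hYρ.le) hexp
          have hk1' := abs_le.mp hk1
          refine Or.inr ?_
          rw [Set.mem_iUnion₂]
          refine ⟨k, ?_, hσh.trans h1, hre, ?_, ?_⟩
          · rw [hK, Set.Finite.mem_toFinset]
            have hk0 : (0 : ℝ) ≤ k := Nat.cast_nonneg k
            refine ⟨⟨max_le (by linarith) (by linarith), by rw [hH']; linarith⟩, ?_⟩
            have hsub : (dz (ρ.re - δ₁) k).ncard ≤ (dz (σ - δ) k).ncard := by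
              refine Set.ncard_le_ncard ?_ (helper31_dz_finite _ (by linarith) _)
              rintro z ⟨a, b, c, d⟩
              exact ⟨a, by linarith, c, d⟩
            have hsubR : ((dz (ρ.re - δ₁) k).ncard : ℝ) ≤ ((dz (σ - δ) k).ncard : ℝ) := by
              exact_mod_cast hsub
            refine le_trans ?_ (hk2.trans hsubR)
            have hl1 : κ * Real.log X ≤ Real.log ρ.im := by
              rw [← Real.log_rpow hX0]
              exact Real.log_le_log (by positivity) ((le_max_right _ _).trans hYρ.le)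
            have hl2 : Real.log (T' + H' + 2) ≤ 2 * Real.log X := by
              have := Real.log_le_log (by linarith) hX'X
              rw [Real.log_pow] at this
              exact_mod_cast this
            have hlX : 0 ≤ Real.log X := Real.log_nonneg (by linarith)
            calc ε' * Real.log (T' + H' + 2) ≤ ε' * (2 * Real.log X) := by gcongr
              _ ≤ (c * κ / 2) * (2 * Real.log X) := by gcongr
              _ = c * (κ * Real.log X) := by ring
              _ ≤ c * Real.log ρ.im := by gcongr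
          · refine max_le (by linarith) (by linarith)
          · have : (k : ℝ) - M - 3 ≤ max ((k : ℝ) - M - 3) 0 := le_max_left _ _
            linarith
        have hz1 : Zer ε σ T H ≤ (zc P1 : ℝ) + (zc P2 : ℝ) + ∑ k ∈ K, (zc (P3 k) : ℝ) := by
          have e1 : zc {ρ : ℂ | σ ≤ ρ.re ∧ T < ρ.im ∧ ρ.im ≤ T + H} =
              zc {ρ : ℂ | σ ≤ ρ.re ∧ T < ρ.im ∧ ρ.im ≤ T + H ∧ riemannZeta ρ = 0} := by
            apply h30_zc_congr
            intro ρ hρ
            constructor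
            · rintro ⟨a, b, c⟩; exact ⟨a, b, c, hρ⟩
            · rintro ⟨a, b, c, -⟩; exact ⟨a, b, c⟩
          have e2 : zc {ρ : ℂ | σ ≤ ρ.re ∧ T < ρ.im ∧ ρ.im ≤ T + H} ≤
              zc P1 + zc P2 + ∑ k ∈ K, zc (P3 k) := by
            rw [e1]
            refine (zc_mono hcov ((hb1.union hb2).union hbU)).trans ?_
            refine (h30_zc_union_le (hb1.union hb2) hbU).trans ?_
            exact add_le_add (h30_zc_union_le hb1 hb2) (zc_union_le K P3 hb3)
          unfold Zer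
          exact_mod_cast e2
        -- first part
        have hq1 : (zc P1 : ℝ) ≤ B * X ^ η * H ^ (2 * (1 - σ)) := by
          have h1 := hE σ T H hσh hσ1 hT hH
          have h2 : (T + H) ^ (20 * lam * Real.log (Real.exp 1 / lam)) ≤ X ^ η := by
            calc (T + H) ^ (20 * lam * Real.log (Real.exp 1 / lam)) ≤ (T + H) ^ η :=
                  Real.rpow_le_rpow_of_exponent_le (by linarith) hlamη
              _ ≤ X ^ η := Real.rpow_le_rpow (by linarith) (by linarith) hη.le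
          calc (zc P1 : ℝ) ≤ B * H ^ (2 * (1 - σ)) *
                (T + H) ^ (20 * lam * Real.log (Real.exp 1 / lam)) := h1
            _ ≤ B * H ^ (2 * (1 - σ)) * X ^ η := by gcongr
            _ = B * X ^ η * H ^ (2 * (1 - σ)) := by ring
        -- second part
        have hq2 : (zc P2 : ℝ) ≤ 2 * C₀ * γ₀ ^ 2 * X ^ η := by
          have h0 : zc P2 ≤ zc {ρ : ℂ | 1 / 2 ≤ ρ.re ∧ 0 ≤ ρ.im ∧ ρ.im ≤ 0 + Y} :=
            helper31_zc_le (fun ρ hρ _ => ⟨hρ.1, hρ.2.2.1, hρ.2.2.2⟩)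
          have h1 : (zc P2 : ℝ) ≤ C₀ * Y * Real.log (0 + Y + 2) :=
            (Nat.cast_le.mpr h0).trans (hZ 0 Y le_rfl hY1)
          have h2 : Real.log (0 + Y + 2) ≤ 2 * Y := by
            have h3 := Real.log_le_sub_one_of_pos (show 0 < 0 + Y + 2 by linarith)
            linarith
          have h3 : Y * Y ≤ (γ₀ * X ^ κ) * (γ₀ * X ^ κ) :=
            mul_le_mul hYle hYle (by linarith) (by positivity)
          have h4 : X ^ κ * X ^ κ = X ^ η := by
            rw [← Real.rpow_add hX0, hκ]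
            congr 1
            ring
          calc (zc P2 : ℝ) ≤ C₀ * Y * Real.log (0 + Y + 2) := h1
            _ ≤ C₀ * Y * (2 * Y) := by gcongr
            _ = 2 * C₀ * (Y * Y) := by ring
            _ ≤ 2 * C₀ * ((γ₀ * X ^ κ) * (γ₀ * X ^ κ)) := by gcongr
            _ = 2 * C₀ * γ₀ ^ 2 * (X ^ κ * X ^ κ) := by ring
            _ = 2 * C₀ * γ₀ ^ 2 * X ^ η := by rw [h4]
        -- third part
        have hq3 : ∀ k ∈ K, (zc (P3 k) : ℝ) ≤ C₁ * X ^ η := by
          intro k hk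
          rw [hK, Set.Finite.mem_toFinset] at hk
          obtain ⟨⟨-, hk2⟩, -⟩ := hk
          have h0 : zc (P3 k) ≤ zc {ρ : ℂ | 1 / 2 ≤ ρ.re ∧ max ((k : ℝ) - M - 3) 0 ≤ ρ.im ∧
              ρ.im ≤ max ((k : ℝ) - M - 3) 0 + (2 * M + 6)} :=
            helper31_zc_le (fun ρ hρ _ => ⟨hρ.1, hρ.2.2.1, hρ.2.2.2⟩)
          have hmax0 : 0 ≤ max ((k : ℝ) - M - 3) 0 := le_max_right _ _
          have h1 : (zc (P3 k) : ℝ) ≤
              C₀ * (2 * M + 6) * Real.log (max ((k : ℝ) - M - 3) 0 + (2 * M + 6) + 2) :=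
            (Nat.cast_le.mpr h0).trans (hZ _ _ hmax0 (by linarith))
          have hk0 : (0 : ℝ) ≤ k := Nat.cast_nonneg k
          have hmax1 : max ((k : ℝ) - M - 3) 0 ≤ k := max_le (by linarith) hk0
          have h2 : max ((k : ℝ) - M - 3) 0 + (2 * M + 6) + 2 ≤ X ^ 3 := by
            have h3 : (k : ℝ) ≤ X ^ 2 := by
              have : T' + H' ≤ X' := by rw [hX']; linarith
              exact hk2.trans (this.trans hX'X)
            have h4 : X ^ 2 + X ≤ X ^ 3 := by
              have h5 : 3 * X ^ 2 ≤ X * X ^ 2 := mul_le_mul_of_nonneg_right hX3 (by positivity)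
              have h6 : 1 * X ≤ X * X := mul_le_mul_of_nonneg_right (by linarith) hX0.le
              have h7 : X ^ 3 = X * X ^ 2 := by ring
              have h8 : X ^ 2 = X * X := sq X
              rw [h7]
              linarith
            linarith
          have h3 : Real.log (max ((k : ℝ) - M - 3) 0 + (2 * M + 6) + 2) ≤ 3 * Real.log X := by
            have h4 := Real.log_le_log (by linarith) h2
            rw [Real.log_pow] at h4
            exact_mod_cast h4
          have h5 := Real.log_le_rpow_div hX0.le hη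
          calc (zc (P3 k) : ℝ) ≤
                C₀ * (2 * M + 6) * Real.log (max ((k : ℝ) - M - 3) 0 + (2 * M + 6) + 2) := h1
            _ ≤ C₀ * (2 * M + 6) * (3 * Real.log X) := by gcongr
            _ ≤ C₀ * (2 * M + 6) * (3 * (X ^ η / η)) := by gcongr
            _ = C₁ * X ^ η := by rw [hC₁]; ring
        have hq3' : ∑ k ∈ K, (zc (P3 k) : ℝ) ≤ B' * (C₁ * X ^ η) := by
          calc ∑ k ∈ K, (zc (P3 k) : ℝ) ≤ ∑ _k ∈ K, C₁ * X ^ η := Finset.sum_le_sum hq3
            _ = K.card * (C₁ * X ^ η) := by rw [Finset.sum_const, nsmul_eq_mul]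
            _ ≤ B' * (C₁ * X ^ η) := by gcongr
        have hX0η : 0 < X ^ η := by linarith
        have hCa : B + 2 * C₀ * γ₀ ^ 2 ≤ C := by
          have : 0 ≤ C₀ * X₁ * Real.log X₁ := by positivity
          rw [hC]; linarith
        have hCb : C₁ ≤ C := by
          have : 0 ≤ C₀ * X₁ * Real.log X₁ := by positivity
          have : 0 ≤ 2 * C₀ * γ₀ ^ 2 := by positivity
          rw [hC]; linarith
        calc Zer ε σ T H ≤ (zc P1 : ℝ) + (zc P2 : ℝ) + ∑ k ∈ K, (zc (P3 k) : ℝ) := hz1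
          _ ≤ B * X ^ η * H ^ (2 * (1 - σ)) + 2 * C₀ * γ₀ ^ 2 * X ^ η + B' * (C₁ * X ^ η) := by
              linarith
          _ ≤ B * X ^ η * H ^ (2 * (1 - σ)) + 2 * C₀ * γ₀ ^ 2 * X ^ η * H ^ (2 * (1 - σ)) +
              B' * (C₁ * X ^ η) := by
              have : 2 * C₀ * γ₀ ^ 2 * X ^ η * 1 ≤ 2 * C₀ * γ₀ ^ 2 * X ^ η * H ^ (2 * (1 - σ)) := by
                gcongr
              linarith
          _ = (B + 2 * C₀ * γ₀ ^ 2) * (X ^ η * H ^ (2 * (1 - σ))) + C₁ * (X ^ η * B') := by ring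
          _ ≤ C * (X ^ η * H ^ (2 * (1 - σ))) + C * (X ^ η * B') := by gcongr
          _ = C * X ^ η * (H ^ (2 * (1 - σ)) + B') := by ring
  · intro G hG
    rw [Set.mem_singleton_iff] at hG
    rw [hG]
    exact hCr

end Pool.Agent.EQ
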